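import Pool.Agent.Q80.AC.Stm2

/-!
# Project AC, part IDEAL: Fell absorption (helper230)
-/

set_option autoImplicit false

open MeasureTheory Topology Filter
open scoped ENNReal NNReal ComplexConjugate

noncomputable section

namespace Pool.Agent.Q230.AC.IDEAL

open Pool.Agent.Q80.AC

variable {H : Type} [Group H] [TopologicalSpace H] [IsTopologicalGroup H] [LocallyCompactSpace H]
  [SecondCountableTopology H] [T2Space H] [MeasurableSpace H] [BorelSpace H]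

lemma nsq (m : Measure H) (f : Lp ℂ 2 m) : ‖f‖ ^ 2 = ∫ x, ‖f x‖ ^ 2 ∂m := by
  have h := L2.inner_def (𝕜 := ℂ) f f
  rw [inner_self_eq_norm_sq_to_K] at h
  have h2 : (∫ x, inner ℂ (f x) (f x) ∂m) = ((∫ x, ‖f x‖ ^ 2 ∂m : ℝ) : ℂ) := by
    rw [← integral_complex_ofReal]
    refine integral_congr_ae (ae_of_all _ fun x => ?_)
    simp only
    rw [inner_self_eq_norm_sq_to_K]
    push_cast
    rfl
  rw [h2] at h
  have h3 : ((‖f‖ ^ 2 : ℝ) : ℂ) = ((∫ x, ‖f x‖ ^ 2 ∂m : ℝ) : ℂ) := by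
    rw [← h]
    push_cast
    rfl
  exact_mod_cast h3

lemma nsq_toLp (m : Measure H) {a : H → ℂ} (ha : MemLp a 2 m) :
    ‖ha.toLp a‖ ^ 2 = ∫ x, ‖a x‖ ^ 2 ∂m := by
  rw [nsq]
  refine integral_congr_ae ?_
  filter_upwards [ha.coeFn_toLp] with x hx
  rw [hx]

omit [Group H] [TopologicalSpace H] [IsTopologicalGroup H] [LocallyCompactSpace H] [SecondCountableTopology H] [T2Space H] [BorelSpace H] in
lemma sq_int (m : Measure H) {a : H → ℂ} (ha : MemLp a 2 m) :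
    Integrable (fun x => ‖a x‖ ^ 2) m := ha.integrable_norm_pow (by norm_num)

lemma comp_mem (m : Measure H) [m.IsHaarMeasure] {a : H → ℂ} (ha : MemLp a 2 m) (s : H) :
    MemLp (fun x => a (s⁻¹ * x)) 2 m :=
  ha.comp_measurePreserving (measurePreserving_mul_left m s⁻¹)

lemma lam_toLp (m : Measure H) [m.IsHaarMeasure] {a : H → ℂ} (ha : MemLp a 2 m) (s : H) :
    lam m s (ha.toLp a) =ᵐ[m] fun x => a (s⁻¹ * x) := by
  have h : lam m s (ha.toLp a) = (comp_mem m ha s).toLp _ :=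
    Lp.toLp_compMeasurePreserving ha (measurePreserving_mul_left m s⁻¹)
  rw [h]
  exact (comp_mem m ha s).coeFn_toLp

lemma lam_ae (m : Measure H) [m.IsHaarMeasure] (ξ : Lp ℂ 2 m) (s : H) :
    lam m s ξ =ᵐ[m] fun x => ξ (s⁻¹ * x) :=
  Lp.coeFn_compMeasurePreserving ξ (measurePreserving_mul_left m s⁻¹)

/-- Fell absorption. -/
theorem t_IDEAL (h1 : S_KOL) : S_IDEAL := by
  intro H _ _ _ _ _ _ _ _ m _ θ ξ η hθ hθc
  obtain ⟨v, hvc, hv⟩ := h1 H θ hθ hθc
  -- the norms of `v x`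
  have hvn : ∀ x, ‖v x‖ ^ 2 = (θ 1).re := by
    intro x
    have h2 := hv x x
    rw [mul_inv_cancel, inner_self_eq_norm_sq_to_K] at h2
    rw [← h2]
    norm_cast
  set T : ℝ := (θ 1).re with hT
  have hT0 : 0 ≤ T := by rw [← hvn 1]; positivity
  have hcoord : ∀ i, Continuous fun x => v x i := by
    intro i
    have h2 : Continuous fun w : lp (fun _ : ℕ => ℂ) 2 => w i := by
      exact (lp.evalCLM ℂ (fun _ : ℕ => ℂ) 2 i).continuous
    exact h2.comp hvc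
  have hci : ∀ x i, ‖v x i‖ ≤ ‖v x‖ := fun x i => lp.norm_apply_le_norm (by norm_num) _ _
  have hS : ∀ x, HasSum (fun i => ‖v x i‖ ^ 2) T := by
    intro x
    have h2 := lp.hasSum_norm (p := 2) (by norm_num) (v x)
    rw [← hvn x]
    simpa using h2
  have hfin : ∀ (F : Finset ℕ) x, ∑ i ∈ F, ‖v x i‖ ^ 2 ≤ T := fun F x =>
    sum_le_hasSum F (fun i _ => by positivity) (hS x)
  -- membership in `L²`
  have hmem : ∀ (ζ : Lp ℂ 2 m) (i : ℕ), MemLp (fun x => ζ x * v x i) 2 m := by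
    intro ζ i
    refine (Lp.memLp ζ).of_le_mul (c := Real.sqrt T) ?_ (ae_of_all _ fun x => ?_)
    · exact (Lp.aestronglyMeasurable ζ).mul (hcoord i).aestronglyMeasurable
    · rw [norm_mul, mul_comm]
      refine mul_le_mul_of_nonneg_right ((hci x i).trans ?_) (norm_nonneg _)
      exact Real.le_sqrt_of_sq_le (hvn x).le
  set Z : Lp ℂ 2 m → ℕ → Lp ℂ 2 m := fun ζ i => (hmem ζ i).toLp _ with hZ
  have hsum : ∀ (ζ : Lp ℂ 2 m) (F : Finset ℕ), ∑ i ∈ F, ‖Z ζ i‖ ^ 2 ≤ ‖ζ‖ ^ 2 * T := by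
    intro ζ F
    have h2 : ∀ i, ‖Z ζ i‖ ^ 2 = ∫ x, ‖ζ x * v x i‖ ^ 2 ∂m := fun i => nsq_toLp m (hmem ζ i)
    rw [Finset.sum_congr rfl fun i _ => h2 i, ← integral_finsetSum _ fun i _ => sq_int m (hmem ζ i),
      nsq, ← integral_mul_const]
    refine integral_mono (integrable_finsetSum _ fun i _ => sq_int m (hmem ζ i))
      ((sq_int m (Lp.memLp ζ)).mul_const _) fun x => ?_
    simp only [norm_mul, mul_pow]
    rw [← Finset.mul_sum]
    exact mul_le_mul_of_nonneg_left (hfin F x) (by positivity)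
  have hsm : ∀ ζ : Lp ℂ 2 m, Summable fun i => ‖Z ζ i‖ ^ 2 := fun ζ =>
    summable_of_sum_le (fun i => by positivity) (hsum ζ)
  have hprod : ∀ F : Finset ℕ, ∑ i ∈ F, ‖Z ξ i‖ * ‖Z η i‖ ≤ ‖ξ‖ * ‖η‖ * T := by
    intro F
    have h2 := Finset.sum_mul_sq_le_sq_mul_sq F (fun i => ‖Z ξ i‖) (fun i => ‖Z η i‖)
    have h3 : (∑ i ∈ F, ‖Z ξ i‖ * ‖Z η i‖) ^ 2 ≤ (‖ξ‖ * ‖η‖ * T) ^ 2 := by
      refine h2.trans ?_
      have h4 := mul_le_mul (hsum ξ F) (hsum η F)
        (Finset.sum_nonneg fun i _ => by positivity) (by positivity)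
      calc _ ≤ _ := h4
        _ = _ := by ring
    exact le_of_sq_le_sq h3 (by positivity)
  refine ⟨Z ξ, Z η, summable_of_sum_le (fun i => by positivity) hprod,
    Real.tsum_le_of_sum_le (fun i => by positivity) hprod, fun s => ?_⟩
  -- the identity
  have hin : ∀ i, inner ℂ (Z η i) (lam m s (Z ξ i)) =
      ∫ x, (ξ (s⁻¹ * x) * v (s⁻¹ * x) i) * conj (η x * v x i) ∂m := by
    intro i
    rw [L2.inner_def]
    refine integral_congr_ae ?_
    filter_upwards [(hmem η i).coeFn_toLp, lam_toLp m (hmem ξ i) s] with x hx1 hx2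
    simp only [hZ]
    rw [hx1, hx2, RCLike.inner_apply]
  have hint : ∀ i, Integrable
      (fun x => (ξ (s⁻¹ * x) * v (s⁻¹ * x) i) * conj (η x * v x i)) m := by
    intro i
    have h2 := L2.integrable_inner (𝕜 := ℂ) (Z η i) (lam m s (Z ξ i))
    refine h2.congr ?_
    filter_upwards [(hmem η i).coeFn_toLp, lam_toLp m (hmem ξ i) s] with x hx1 hx2
    simp only [hZ]
    rw [hx1, hx2, RCLike.inner_apply]
  have hbd : ∀ i, ∫ x, ‖(ξ (s⁻¹ * x) * v (s⁻¹ * x) i) * conj (η x * v x i)‖ ∂m ≤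
      (‖Z ξ i‖ ^ 2 + ‖Z η i‖ ^ 2) / 2 := by
    intro i
    have h2 : ‖Z ξ i‖ ^ 2 = ∫ x, ‖ξ (s⁻¹ * x) * v (s⁻¹ * x) i‖ ^ 2 ∂m := by
      rw [← (lam m s).norm_map (Z ξ i), nsq]
      refine integral_congr_ae ?_
      filter_upwards [lam_toLp m (hmem ξ i) s] with x hx
      simp only [hZ]
      rw [hx]
    rw [h2, nsq_toLp m (hmem η i), ← integral_add (sq_int m (comp_mem m (hmem ξ i) s))
      (sq_int m (hmem η i)), ← integral_div]
    refine integral_mono (hint i).norm (((sq_int m (comp_mem m (hmem ξ i) s)).add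
      (sq_int m (hmem η i))).div_const 2) fun x => ?_
    rw [norm_mul, RCLike.norm_conj]
    nlinarith [sq_nonneg (‖ξ (s⁻¹ * x) * v (s⁻¹ * x) i‖ - ‖η x * v x i‖)]
  have hsb : Summable fun i =>
      ∫ x, ‖(ξ (s⁻¹ * x) * v (s⁻¹ * x) i) * conj (η x * v x i)‖ ∂m :=
    Summable.of_nonneg_of_le (fun i => integral_nonneg fun x => norm_nonneg _) hbd
      (((hsm ξ).add (hsm η)).div_const 2)
  have hHS := hasSum_integral_of_summable_integral_norm hint hsb
  have hpt : ∀ x, ∑' i, (ξ (s⁻¹ * x) * v (s⁻¹ * x) i) * conj (η x * v x i) =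
      θ s * (ξ (s⁻¹ * x) * conj (η x)) := by
    intro x
    have h2 : HasSum (fun i => inner ℂ (v x i) (v (s⁻¹ * x) i)) (inner ℂ (v x) (v (s⁻¹ * x))) :=
      lp.hasSum_inner _ _
    rw [hv, mul_inv_rev, inv_inv, ← mul_assoc, mul_inv_cancel, one_mul] at h2
    have h3 := h2.mul_left (ξ (s⁻¹ * x) * conj (η x))
    have h4 : (fun i => (ξ (s⁻¹ * x) * v (s⁻¹ * x) i) * conj (η x * v x i)) =
        fun i => (ξ (s⁻¹ * x) * conj (η x)) * inner ℂ (v x i) (v (s⁻¹ * x) i) := by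
      funext i
      rw [RCLike.inner_apply, map_mul]
      ring
    rw [h4, h3.tsum_eq, mul_comm]
  rw [tsum_congr hin, hHS.tsum_eq, integral_congr_ae (ae_of_all _ hpt), integral_const_mul]
  change θ s * inner ℂ η (lam m s ξ) = _
  congr 1
  rw [L2.inner_def]
  refine integral_congr_ae ?_
  filter_upwards [lam_ae m ξ s] with x hx
  rw [hx, RCLike.inner_apply]

end Pool.Agent.Q230.AC.IDEAL
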